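import Mathlib
import Pool.Agent.MP_ed46bc_co.K3.All

/-!
# The minimum number of solutions of `x + y + z = w` in groups of odd order
-/

namespace Pool.Agent.Results.MP_ed46bc_co.OddThree

open Finset

universe u

/-- `P(G,k,A)`: the number of ordered `k`-tuples of elements of `A` whose sum lies in `A`. -/
def P {G : Type u} [AddCommGroup G] [Fintype G] [DecidableEq G] (k : ℕ) (A : Finset G) : ℕ :=
  (Finset.univ.filter fun a : Fin k → G => (∀ i, a i ∈ A) ∧ ∑ i, a i ∈ A).card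

/-- `P(G,k,m)`: the minimum of `P(G,k,A)` over the subsets `A` of size `m`. -/
noncomputable def Pmin (G : Type u) [AddCommGroup G] [Fintype G] [DecidableEq G]
    (k m : ℕ) : ℕ :=
  sInf {p : ℕ | ∃ A : Finset G, A.card = m ∧ P k A = p}

/-- Signed distance `m - κ ⌊m/κ + 1/2⌋` from `m` to the nearest multiple of `κ`. -/
def near (m κ : ℕ) : ℤ := (m : ℤ) - κ * ((2 * m + κ) / (2 * κ) : ℕ)

/-- The gain of the divisor `κ`: with `s = near m κ` it is
`(4m - n)(κ² - 12|s|(κ - |s|)) - 4s(κ - |s|)(κ - 2|s|)`, plus `24 s³` if `n < 2m + κ`. -/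
def gain (n m κ : ℕ) : ℤ :=
  (4 * (m : ℤ) - n) * ((κ : ℤ) ^ 2 - 12 * |near m κ| * (κ - |near m κ|))
    - 4 * near m κ * (κ - |near m κ|) * (κ - 2 * |near m κ|)
    + (if n < 2 * m + κ then 24 * near m κ ^ 3 else 0)

/-- `max(0, (4m - n)³ - g)`, where `g` is the largest of `0` and the gains of the divisors
`κ < n` of `n`. -/
def Phi (n m : ℕ) : ℤ :=
  max 0 ((4 * (m : ℤ) - n) ^ 3 - (n.properDivisors.sup fun κ => (gain n m κ).toNat : ℕ))

/-- `24 (m⁴ - μ⁴) + n Φ(n, μ)` with `μ = min(m, n - m)`. -/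
def bound (n m : ℕ) : ℤ :=
  24 * ((m : ℤ) ^ 4 - (min m (n - m) : ℕ) ^ 4) + n * Phi n (min m (n - m))

theorem result (G : Type u) [AddCommGroup G] [Fintype G] [DecidableEq G]
    (hodd : Odd (Fintype.card G)) (m : ℕ) (hm : m ≤ Fintype.card G) :
    bound (Fintype.card G) m ≤ 24 * Fintype.card G * (Pmin G 3 m : ℤ) ∧
      (IsAddCyclic G → 24 * Fintype.card G * (Pmin G 3 m : ℤ) = bound (Fintype.card G) m) :=
  Pool.Agent.MP_ed46bc_co.K3.all_min G hodd m hm

end Pool.Agent.Results.MP_ed46bc_co.OddThree
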