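import Mathlib
import Pool.Agent.MP_ed46bc_co.SD.All

/-!
# The minimum number of Schur triples from the order and the exponent
-/

namespace Pool.Agent.Results.MP_ed46bc_co.OrderExponent

open Finset

universe u

/-- `P(G,k,A)`: the number of ordered `k`-tuples of elements of `A` whose sum lies in `A`. -/
def P {G : Type u} [AddCommGroup G] [Fintype G] [DecidableEq G] (k : ℕ) (A : Finset G) : ℕ :=
  (Finset.univ.filter fun a : Fin k → G => (∀ i, a i ∈ A) ∧ ∑ i, a i ∈ A).card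

/-- `P(G,k,m)`: the minimum of `P(G,k,A)` over the subsets `A` of size `m`. -/
noncomputable def Pmin (G : Type u) [AddCommGroup G] [Fintype G] [DecidableEq G]
    (k m : ℕ) : ℕ :=
  sInf {p : ℕ | ∃ A : Finset G, A.card = m ∧ P k A = p}

/-- The admissible values for `b`, given `n` and `e`: for some `κ, j` with `κ j ∣ n` and `j ∣ e`,
either `(κ - s)(κ - 5s)` with `t` odd, `s ≤ κ` and `b = tκ + s ≤ jκ` or `b = tκ - s`, `3t < 2j`;
or `(2κj - 3b)²` with `κj - ⌊(j+1)/3⌋ κ ≤ b ≤ κj`. -/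
def Adm (n e b : ℕ) (v : ℤ) : Prop :=
  ∃ κ j : ℕ, κ * j ∣ n ∧ j ∣ e ∧
    ((∃ t s : ℕ, Odd t ∧ s ≤ κ ∧ ((b = t * κ + s ∧ b ≤ j * κ) ∨ (b + s = t * κ ∧ 3 * t < 2 * j)) ∧
        v = ((κ : ℤ) - s) * ((κ : ℤ) - 5 * s)) ∨
      (b ≤ κ * j ∧ κ * j ≤ b + (j + 1) / 3 * κ ∧ v = (2 * ((κ : ℤ) * j) - 3 * b) ^ 2))

/-- The largest nonnegative admissible value; `0` if there is none. -/
noncomputable def gain (n e b : ℕ) : ℕ := sSup {v : ℕ | Adm n e b v}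

theorem result (G : Type u) [AddCommGroup G] [Fintype G] [DecidableEq G] (g : G) (i : ℕ)
    (hi : addOrderOf g * i = Fintype.card G) (hG : ∀ p : ℕ, p.Prime → p ∣ i → p % 3 ≠ 1)
    (m : ℕ) (hm : m ≤ Fintype.card G)
    (hc : (∃ a : ℕ, 2 ^ a ∣ Fintype.card G ∧ ∀ p : ℕ, p.Prime → p ∣ i → 2 * p ≤ 3 * 2 ^ a) ∨
      ∃ v, Adm (Fintype.card G) (AddMonoid.exponent G) (Fintype.card G - m) v ∧ 0 ≤ v) :
    4 * (Pmin G 2 m : ℤ) = (3 * (m : ℤ) - Fintype.card G) ^ 2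
      - gain (Fintype.card G) (AddMonoid.exponent G) (Fintype.card G - m) :=
  Pool.Agent.MP_ed46bc_co.SD.fin_all Pool.Agent.MP_ed46bc_co.SD.all_ms2
    Pool.Agent.MP_ed46bc_co.SD.cova Pool.Agent.MP_ed46bc_co.SD.seca
    Pool.Agent.MP_ed46bc_co.SC.all_sec G g i hi hG m hm _ rfl hc _ rfl

end Pool.Agent.Results.MP_ed46bc_co.OrderExponent
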