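import Mathlib
import Pool.Agent.MP_ed46bc_co.Groups

/-!
# The minimum number of `k`-fold sums in abelian 2-groups, `k` even
-/

namespace Pool.Agent.Results.MP_ed46bc_co.TwoGroups

open Finset Pool.Agent.MP_ed46bc_co

universe u

/-- `P(G,k,A)`: the number of ordered `k`-tuples of elements of `A` whose sum lies in `A`. -/
def P {G : Type u} [AddCommGroup G] [Fintype G] [DecidableEq G] (k : ℕ) (A : Finset G) : ℕ :=
  (Finset.univ.filter fun a : Fin k → G => (∀ i, a i ∈ A) ∧ ∑ i, a i ∈ A).card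

/-- `P(G,k,m)`: the minimum of `P(G,k,A)` over the subsets `A` of size `m`. -/
noncomputable def Pmin (G : Type u) [AddCommGroup G] [Fintype G] [DecidableEq G]
    (k m : ℕ) : ℕ :=
  sInf {p : ℕ | ∃ A : Finset G, A.card = m ∧ P k A = p}

/-- The correction term: `0` for `b = 0`, and otherwise `(b^(k+1) + (N-b)^(k+1)) / N`, where
`N = 2^⌈log₂ b⌉` is the least power of two that is at least `b`. -/
def corr (k b : ℕ) : ℚ :=
  if b = 0 then 0 else
    ((b : ℚ) ^ (k + 1) + (2 ^ Nat.clog 2 b - b : ℚ) ^ (k + 1)) / 2 ^ Nat.clog 2 b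

lemma max_eq {G : Type u} [AddCommGroup G] [Fintype G] [DecidableEq G] {e : ℕ}
    (hG : Fintype.card G = 2 ^ e) {k : ℕ} (hk : Even k) (b : ℕ) (hb : b ≤ 2 ^ e) :
    (∀ B : Finset G, B.card = b → (P k B : ℚ) ≤ corr k b) ∧
      ∃ B : Finset G, B.card = b ∧ (P k B : ℚ) = corr k b := by
  rcases Nat.lt_or_ge 1 b with h1 | h1
  · obtain ⟨j, hj⟩ : ∃ j, Nat.clog 2 b = j + 1 :=
      ⟨Nat.clog 2 b - 1, by have := Nat.clog_pos one_lt_two h1; omega⟩
    have hje : j + 1 ≤ e := hj ▸ Nat.clog_le_of_le_pow hb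
    have h2 : b ≤ 2 ^ (j + 1) := hj ▸ Nat.le_pow_clog one_lt_two b
    have h3 : 2 ^ j ≤ b := by
      have := Nat.pow_pred_clog_lt_self one_lt_two h1
      rw [hj] at this
      exact this.le
    simp only [corr, show b ≠ 0 by omega, if_false, hj, P, ← sum_R_eq]
    refine ⟨?_, attained hG hk b hje h3 h2⟩
    rintro B rfl
    exact upper hG hk B hje h3 h2
  · interval_cases b
    · simp only [corr, if_true, P, ← sum_R_eq]
      refine ⟨fun B hB => ?_, ∅, rfl, by simp⟩
      rw [card_eq_zero.1 hB]; simp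
    · have hc : corr k 1 = 1 := by simp [corr]
      rw [hc]
      refine ⟨fun B hB => ?_, {0}, rfl, ?_⟩
      · obtain ⟨x, rfl⟩ := card_eq_one.1 hB
        have : P k {x} ≤ 1 := by
          refine card_le_one.2 fun a ha c hc => ?_
          simp only [mem_filter, mem_univ, true_and, mem_singleton] at ha hc
          ext i
          rw [ha.1 i, hc.1 i]
        exact_mod_cast this
      · have : P k ({0} : Finset G) = 1 := by
          refine card_eq_one.2 ⟨0, ?_⟩
          ext a
          simp only [mem_filter, mem_univ, true_and, mem_singleton]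
          constructor
          · rintro ⟨h, -⟩; ext i; exact h i
          · rintro rfl; simp
        exact_mod_cast this

theorem result (G : Type u) [AddCommGroup G] [Fintype G] [DecidableEq G] (e : ℕ)
    (hG : Fintype.card G = 2 ^ e) (k : ℕ) (hk : Even k) (m b : ℕ) (hmb : m + b = 2 ^ e) :
    (Pmin G k m : ℚ) = ((m : ℚ) ^ (k + 1) + (b : ℚ) ^ (k + 1)) / 2 ^ e - corr k b := by
  obtain ⟨hup, B, hB, hBe⟩ := max_eq hG hk b (by omega)
  have hcompl : ∀ A : Finset G, A.card = m → (univ \ A).card = b ∧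
      (P k A : ℚ) + P k (univ \ A) = ((m : ℚ) ^ (k + 1) + (b : ℚ) ^ (k + 1)) / 2 ^ e := by
    intro A hA
    have h1 : (univ \ A).card = b := by
      rw [card_sdiff_of_subset (subset_univ _), card_univ, hG, hA]; omega
    refine ⟨h1, ?_⟩
    have := P_compl univ (mem_univ _) (fun _ _ _ _ => mem_univ _) A (subset_univ _) hk
    rw [sum_R_eq, sum_R_eq, hA, h1, card_univ, hG] at this
    push_cast at this
    exact this
  have hA₀ : (univ \ B).card = m := by
    rw [card_sdiff_of_subset (subset_univ _), card_univ, hG, hB]; omega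
  have h₀ := (hcompl _ hA₀).2
  rw [Finset.sdiff_sdiff_eq_self (subset_univ _), hBe] at h₀
  have hmem : P k (univ \ B) ∈ {p : ℕ | ∃ A : Finset G, A.card = m ∧ P k A = p} :=
    ⟨_, hA₀, rfl⟩
  have h1 : Pmin G k m = P k (univ \ B) := by
    refine le_antisymm (Nat.sInf_le hmem) (le_csInf ⟨_, hmem⟩ ?_)
    rintro p ⟨A, hA, rfl⟩
    obtain ⟨h2, h3⟩ := hcompl A hA
    have h4 := hup _ h2
    have : (P k (univ \ B) : ℚ) ≤ P k A := by linarith
    exact_mod_cast this
  rw [h1]
  linarith

end Pool.Agent.Results.MP_ed46bc_co.TwoGroups
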